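import Pool.Graph.R_pool_sql_team_seeded_63374d34.N422.GB.FXG
import Pool.Graph.R_pool_sql_team_seeded_63374d34.N422.GB.GFU
import Pool.Graph.R_pool_sql_team_seeded_63374d34.N422.GB.GLAW
import Pool.Graph.R_pool_sql_team_seeded_63374d34.N422.GB.GOLD
import Pool.Graph.R_pool_sql_team_seeded_63374d34.N422.GB.HXA
import Pool.Graph.R_pool_sql_team_seeded_63374d34.N422.GB.LOW0
import Pool.Graph.R_pool_sql_team_seeded_63374d34.N422.GB.RXA
import Pool.Graph.R_pool_sql_team_seeded_63374d34.N422.EH.EHF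
import Pool.Graph.R_pool_sql_team_seeded_63374d34.N422.EH.EHC
import Pool.Graph.R_pool_sql_team_seeded_63374d34.N422.EH.EHM
import Pool.Graph.R_pool_sql_team_seeded_63374d34.N422.EH.FUNDE
import Pool.Graph.R_pool_sql_team_seeded_63374d34.N422.EH.RECG
import Pool.Graph.R_pool_sql_team_seeded_63374d34.N422.EH.XB
import Pool.Graph.R_pool_sql_team_seeded_63374d34.N422.EH.BACK
import Pool.Graph.R_pool_sql_team_seeded_63374d34.N422.EH.PERM
import Pool.Graph.R_pool_sql_team_seeded_63374d34.N422.EH.SQF2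
import Pool.Graph.R_pool_sql_team_seeded_63374d34.N422.LR.FX
import Pool.Graph.R_pool_sql_team_seeded_63374d34.N422.LR.WX
import Pool.Graph.R_pool_sql_team_seeded_63374d34.N422.LR.KX
import Pool.Graph.R_pool_sql_team_seeded_63374d34.N422.LR.HX
import Pool.Graph.R_pool_sql_team_seeded_63374d34.N422.LR.RX
import Pool.Graph.R_pool_sql_team_seeded_63374d34.N422.LG.LINW
import Pool.Graph.R_pool_sql_team_seeded_63374d34.N422.LG.MERB2
import Pool.Graph.R_pool_sql_team_seeded_63374d34.N422.LR.NX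
import Pool.Graph.R_pool_sql_team_seeded_63374d34.N422.LR.PX
import Pool.Graph.R_pool_sql_team_seeded_63374d34.N422.LG.ALL3

set_option autoImplicit false

namespace Pool.Agent.H301.SV

open Pool.Agent.N422


theorem hit_all : LG.S_HIT := LG.t_HIT (LG.t_MOD3 (WS.t_W NW.t_AV) WS.km) LG.t_ARG

theorem hitu_all : LG.S_HITU := LG.t_HITU (LG.t_UB (NW.t_NW1 NW.t_KER NW.t_POLY NW.t_JEN NW.t_AV)) LG.t_ARDG

theorem recg : EH.S_RECG := EH.t_RECG hit_all hitu_all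

theorem xb : EH.S_XB := EH.t_XB hit_all

theorem ehf : EH.S_EHF := EH.t_EHF (EH.t_EHM EH.t_SQF2 EH.t_BACK EH.t_PERM recg) EH.t_FUNDE xb LG.t_MERB

theorem glaw : GB.S_GLAW := GB.t_GLAW GB.t_GFU recg xb LG.t_MERB

theorem wx : LR.S_WX := LR.t_WX (LR.t_NX LR.t_KX LR.t_PX NW.t_AV (WS.t_GEN2 NW.t_JEN NW.t_AV))

theorem fx : LR.S_FX (17 / 8) :=
  LR.t_FX (17 / 8) (by norm_num) (LR.t_RX (LR.t_HX wx)) LG.t_LINW LG.t_MERB2 LR.t_SQF

theorem ehc : EH.S_EHC (17 / 8) := EH.t_EHC (17 / 8) (by norm_num) fx EH.t_SQF2 EH.t_BACK EH.t_PERM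

theorem gold : ∃ e : ℝ, 2 ≤ e ∧ GB.S_GOLD e := by
  obtain ⟨e, he, h⟩ := GB.t_LOW0
  exact ⟨e, he, GB.t_GOLD e (GB.t_FXG e he (GB.t_RXA (GB.t_HXA wx)) h LG.t_MERB2 LR.t_SQF)⟩

end Pool.Agent.H301.SV
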