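import Pool.Graph.R_pool_sql_team_seeded_63374d34.N422.EH.EHC
import Pool.Agent.H301.SV.FXQ

/-! The quantitative form of EH/EHC (helper31, project EH of helper422), by helper301. -/

set_option autoImplicit false

open Finset

namespace Pool.Agent.H301.SV

open Pool.Agent.N422.NW Pool.Agent.N422.SL Pool.Agent.N422.WS Pool.Agent.N422.LG Pool.Agent.N422.LR Pool.Agent.N422.EH
open Pool.Agent.N422

/-- the quantitative form of EHC -/
theorem ehcq (e : ℝ) (he : 2 ≤ e) (h0 : ∀ ε : ℝ, 0 < ε → ∃ κ : ℝ, 0 < κ ∧ ∃ Q0 : ℕ, ∀ Q : ℕ, Q0 ≤ Q → ∀ U : ℕ,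
      Real.log Q ^ (e + ε) ≤ U → ∀ c : ℕ → ℕ → ℝ,
      (∀ n, κ * (U / Real.log Q) ≤ ((Sv U Q n).card : ℝ) → wt Q c n ≤ 0) → mQ Q (wt Q c) ≤ 0)
    (h1 : S_SQF2) (h2 : S_BACK) (h3 : S_PERM) :
    ∀ ε : ℝ, 0 < ε → ∀ a : ℕ, 1 ≤ a → ∃ κ : ℝ, 0 < κ ∧ ∃ Q0 : ℕ, ∀ Q : ℕ, Q0 ≤ Q → ∀ U : ℕ,
      Real.log Q ^ (e + ε) ≤ U → ∀ c : ℕ → ℕ → ℝ, (∀ n, ¬ Nat.Coprime n a → wt Q c n ≤ 0) →
      (∀ n, κ * (U / Real.log Q) ≤ ((SE a U Q n).card : ℝ) → wt Q c n ≤ 0) → mQ Q (wt Q c) ≤ 0 := by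
  intro ε hε a ha
  obtain ⟨κ, hκ, Q1, hQ1⟩ := h0 (ε / 2) (by positivity)
  obtain ⟨Q2, hQ2⟩ := EHC_U e ε he hε a ha
  have ha0 : (0 : ℝ) < a := by exact_mod_cast ha
  refine ⟨κ / (2 * a), by positivity, max (max Q1 Q2) (max a 3), fun Q hQ U hU c hc1 hc2 => ?_⟩
  have hQa : a ≤ Q := le_trans (le_trans (le_max_left _ _) (le_max_right _ _)) hQ
  have hQ3 : 3 ≤ Q := le_trans (le_trans (le_max_right _ _) (le_max_right _ _)) hQ
  have hlog1 : 1 ≤ Real.log Q := by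
    have h3 : (3 : ℝ) ≤ Q := by exact_mod_cast hQ3
    rw [Real.le_log_iff_exp_le (by linarith)]
    have := Real.exp_one_lt_d9
    linarith
  have hQ1' : 1 ≤ Q := ha.trans hQa
  have hU' := hQ2 Q (le_trans (le_trans (le_max_right _ _) (le_max_left _ _)) hQ) U hU
  have hUa : κ / (2 * a) * (U / Real.log Q) ≤ κ * ((((U - 1) / a : ℕ) : ℝ) / Real.log Q) := by
    have k1 : (1 : ℝ) ≤ (((U - 1) / a : ℕ) : ℝ) := by
      refine le_trans ?_ hU'
      exact Real.one_le_rpow hlog1 (by positivity)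
    have k2 : U ≤ a * ((U - 1) / a) + a := by
      have h8 := Nat.div_add_mod (U - 1) a
      have h9 := Nat.mod_lt (U - 1) (by omega : 0 < a)
      omega
    have k3 : (U : ℝ) ≤ a * (((U - 1) / a : ℕ) : ℝ) + a := by exact_mod_cast k2
    have k4 : (U : ℝ) ≤ 2 * a * (((U - 1) / a : ℕ) : ℝ) := by nlinarith
    calc κ / (2 * a) * (U / Real.log Q) ≤ κ / (2 * a) * (2 * a * (((U - 1) / a : ℕ) : ℝ) / Real.log Q) := by
          gcongr
      _ = _ := by field_simp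
  obtain ⟨c1, A1, -, B1⟩ := h1 Q c hQ1'
  obtain ⟨T, hT⟩ := EHC_T a Q
  obtain ⟨c2, A2, B2⟩ := h3 Q c1 (EHC_tau a) T hQ1' (fun p hp => EHC_bij a p (mem_filter.1 hp).2) hT
  obtain ⟨⟨c3, hc3⟩, B3⟩ := h2 Q c2 hQ1'
  -- the set on which the weight is not positive
  have hneg : ∀ n ∈ {n : ℕ | ¬ Nat.Coprime n a ∨ κ / (2 * a) * (U / Real.log Q) ≤ ((SE a U Q n).card : ℝ)},
      ws Q c1 n ≤ 0 := by
    refine B1 _ (fun n => ?_) (fun n hn => ?_)
    · have e1 : ∀ p ∈ (Icc 1 Q).filter Nat.Prime, n ≡ n % PP Q [MOD p] := fun p hp =>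
        EHC_mod (PP Q) p _ _ (Nat.mod_mod _ _).symm (EHC_dvd Q p hp)
      have e2 : Nat.Coprime n a ↔ Nat.Coprime (n % PP Q) a := by
        have key : ∀ x y : ℕ, (∀ p ∈ (Icc 1 Q).filter Nat.Prime, x ≡ y [MOD p]) →
            Nat.Coprime x a → Nat.Coprime y a := by
          intro x y hxy hx
          by_contra hcon
          obtain ⟨p, hp, hpy, hpa⟩ := Nat.Prime.not_coprime_iff_dvd.1 hcon
          have hpQ : p ∈ (Icc 1 Q).filter Nat.Prime :=
            mem_filter.2 ⟨mem_Icc.2 ⟨hp.one_lt.le, (Nat.le_of_dvd (by omega) hpa).trans hQa⟩, hp⟩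
          have hpx : p ∣ x := ((hxy p hpQ).dvd_iff dvd_rfl).2 hpy
          exact Nat.Prime.not_coprime_iff_dvd.2 ⟨p, hp, hpx, hpa⟩ hx
        exact ⟨key _ _ e1, key _ _ fun p hp => (e1 p hp).symm⟩
      have e3 : SE a U Q n = SE a U Q (n % PP Q) := by
        unfold SE
        refine Finset.filter_congr fun h _ => forall₂_congr fun p hp => ?_
        exact not_congr (((((e1 p hp).mul_left h).add_left a)).dvd_iff dvd_rfl)
      simp only [Set.mem_ofPred_eq]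
      rw [e2, e3]
    · rcases hn with hn | hn
      · exact hc1 n hn
      · exact hc2 n hn
  have hmain : mQ Q (wt Q c3) ≤ 0 := by
    refine hQ1 Q (le_trans (le_trans (le_max_left _ _) (le_max_left _ _)) hQ) _ hU' c3 ?_
    intro n' hn'0
    obtain ⟨n, hn, hn'⟩ := A2 n'
    rw [hc3, hn']
    apply hneg
    by_cases hco : Nat.Coprime n a
    swap
    · exact Or.inl hco
    refine Or.inr (hUa.trans (hn'0.trans ?_))
    have hcard : (Sv ((U - 1) / a) Q n').card ≤ (SE a U Q n).card := by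
      refine card_le_card_of_injOn (fun j => 1 + a * j) ?_ ?_
      swap
      · intro x _ y _ hxy
        have : a * x = a * y := by simpa using hxy
        exact Nat.eq_of_mul_eq_mul_left (by omega) this
      intro j hj
      obtain ⟨hj1, hj2⟩ := mem_filter.1 (mem_coe.1 hj)
      obtain ⟨hj3, hj4⟩ := mem_Icc.1 hj1
      show 1 + a * j ∈ (SE a U Q n : Set ℕ)
      refine mem_coe.2 (mem_filter.2 ⟨mem_Icc.2 ⟨by omega, ?_⟩, fun p hp hdvd => ?_⟩)
      · have h5 : a * j ≤ a * ((U - 1) / a) := Nat.mul_le_mul_left a hj4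
        have h6 : a * ((U - 1) / a) ≤ U - 1 := Nat.mul_div_le _ _
        have h7 : 1 ≤ a * j := Nat.mul_pos (by omega) (by omega)
        omega
      · have hpp := (mem_filter.1 hp).2
        by_cases hpa : p ∣ a
        · have h5 : p ∣ (1 + a * j) * n := (Nat.dvd_add_right hpa).1 hdvd
          rcases hpp.dvd_mul.1 h5 with h6 | h6
          · have h7 : p ∣ 1 := (Nat.dvd_add_left (hpa.mul_right j)).1 h6
            exact hpp.one_lt.ne' (Nat.dvd_one.1 h7)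
          · exact Nat.Prime.not_coprime_iff_dvd.2 ⟨p, hpp, h6, hpa⟩ hco
        · by_cases hpn : p ∣ n
          · exact hpa ((Nat.dvd_add_left (hpn.mul_left _)).1 hdvd)
          · have h5 := EHC_key a p n j (T n) hpp hpa hpn hdvd (hT n p hp)
            have h6 : T n ≡ n' [MOD p] := EHC_mod (PP Q) p _ _ hn (EHC_dvd Q p hp)
            exact hj2 p hp (((h6.add_right j).dvd_iff dvd_rfl).1 h5)
    exact_mod_cast hcard
  have e4 : mQ Q (wt Q c3) = mP Q (ws Q c2) := by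
    have : wt Q c3 = ws Q c2 := funext hc3
    rw [this, B3 _ (EHC_ws Q c2)]
  have e5 := B2 (fun _ => 1) fun _ => rfl
  have e6 := A1 (fun _ => 1) fun _ => rfl
  simp only [mul_one] at e5 e6
  have e7 : mP Q (ws Q c2) = mQ Q (wt Q c) := e5.trans e6
  rw [← e7, ← e4]
  exact hmain


end Pool.Agent.H301.SV
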