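import Pool.Graph.R_pool_sql_team_seeded_63374d34.N422.LG.Stm2
import Pool.Graph.R_seed8.Y829.BT2

/-! The linear sieve lower bound for intervals with the exponent `2`, in the form of project LG. -/

set_option autoImplicit false

open Finset

namespace Pool.Agent.H301.SV

open Pool.Agent.N422 Pool.Agent.N422.LG

theorem lin2 : S_LIN 2 := by
  intro ε hε
  obtain ⟨δ, hδ0, hδ1, hδ2⟩ : ∃ δ : ℝ, 0 < δ ∧ δ ≤ 1 / 10 ∧ 1 ≤ (2 + ε) * (1 / 2 - δ) := by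
    refine ⟨min (1 / 10) (ε / (2 * (2 + ε))), lt_min (by norm_num) (by positivity), min_le_left _ _, ?_⟩
    have h1 : min (1 / 10) (ε / (2 * (2 + ε))) ≤ ε / (2 * (2 + ε)) := min_le_right _ _
    have h2 : (2 + ε) * (ε / (2 * (2 + ε))) = ε / 2 := by field_simp
    have h3 : (2 + ε) * min (1 / 10) (ε / (2 * (2 + ε))) ≤ ε / 2 := by
      rw [← h2]
      exact mul_le_mul_of_nonneg_left h1 (by linarith)
    linarith
  obtain ⟨c, U0, hc, h⟩ := Pool.Agent.Y829.lemA δ hδ0 hδ1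
  refine ⟨c, hc, U0 + 1, fun y hy U hU n => ?_⟩
  have hy1 : (1 : ℝ) ≤ y := by
    have : 1 ≤ y := by omega
    exact_mod_cast this
  have hyU : (y : ℝ) ≤ U := by
    refine le_trans ?_ hU
    calc (y : ℝ) = (y : ℝ) ^ (1 : ℝ) := (Real.rpow_one _).symm
      _ ≤ (y : ℝ) ^ (2 + ε) := Real.rpow_le_rpow_of_exponent_le hy1 (by linarith)
  have hUU : U0 ≤ U := by
    have : y ≤ U := by exact_mod_cast hyU
    omega
  have hyd : (y : ℝ) ≤ (U : ℝ) ^ ((1 / 2 : ℝ) - δ) := by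
    have h12 : (0 : ℝ) ≤ 1 / 2 - δ := by linarith
    calc (y : ℝ) = (y : ℝ) ^ (1 : ℝ) := (Real.rpow_one _).symm
      _ ≤ (y : ℝ) ^ ((2 + ε) * (1 / 2 - δ)) := Real.rpow_le_rpow_of_exponent_le hy1 hδ2
      _ = ((y : ℝ) ^ (2 + ε)) ^ (1 / 2 - δ) := by rw [Real.rpow_mul (by linarith)]
      _ ≤ (U : ℝ) ^ ((1 / 2 : ℝ) - δ) := Real.rpow_le_rpow (by positivity) hU h12
  have h2 := h U n ((Icc 1 y).filter Nat.Prime) hUU (fun p hp => by
    rw [mem_filter, mem_Icc] at hp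
    refine ⟨hp.2, le_trans ?_ hyd⟩
    exact_mod_cast hp.1.2)
  have e1 : Pool.Agent.Y829.V ((Icc 1 y).filter Nat.Prime) = VV y := rfl
  have e2 : Pool.Agent.Y829.Sf ((Icc 1 y).filter Nat.Prime) n U = ((Sv U y n).card : ℝ) := by
    unfold Pool.Agent.Y829.Sf Pool.Agent.Y829.HS Sv
    congr 2
  rw [e1, e2] at h2
  exact h2

end Pool.Agent.H301.SV
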