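import Pool.Agent.H301.SV.All
import Pool.Agent.H301.SV.LIN2
import Pool.Agent.H301.SV.EHCQ

/-! The assembly with the exponent `2`. -/

set_option autoImplicit false

namespace Pool.Agent.H301.SV

open Pool.Agent.N422

theorem fx2 : ∀ ε : ℝ, 0 < ε → ∃ κ : ℝ, 0 < κ ∧ ∃ Q0 : ℕ, ∀ Q : ℕ, Q0 ≤ Q → ∀ U : ℕ,
    Real.log Q ^ (2 + ε) ≤ U → ∀ c : ℕ → ℕ → ℝ,
    (∀ n, κ * (U / Real.log Q) ≤ ((LG.Sv U Q n).card : ℝ) → SL.wt Q c n ≤ 0) → LG.mQ Q (SL.wt Q c) ≤ 0 :=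
  fxq 2 le_rfl (LR.t_RX (LR.t_HX wx)) lin2 LG.t_MERB2 LR.t_SQF

theorem ehc2 : ∀ ε : ℝ, 0 < ε → ∀ a : ℕ, 1 ≤ a → ∃ κ : ℝ, 0 < κ ∧ ∃ Q0 : ℕ, ∀ Q : ℕ, Q0 ≤ Q → ∀ U : ℕ,
    Real.log Q ^ (2 + ε) ≤ U → ∀ c : ℕ → ℕ → ℝ, (∀ n, ¬ Nat.Coprime n a → SL.wt Q c n ≤ 0) →
    (∀ n, κ * (U / Real.log Q) ≤ ((EH.SE a U Q n).card : ℝ) → SL.wt Q c n ≤ 0) → LG.mQ Q (SL.wt Q c) ≤ 0 :=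
  ehcq 2 le_rfl fx2 EH.t_SQF2 EH.t_BACK EH.t_PERM

end Pool.Agent.H301.SV
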